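import Pool.Agent.H10.GM.Targets1

/-!
# Board gm_modules, row SEL: disjoint paths for all pairs
-/

set_option autoImplicit false

namespace Pool.Agent.H49.GM

open Pool.Agent.H55.GW Pool.Agent.H10.GM

theorem pf_SEL (hS : T_SELS) : T_SEL := by
  intro r n
  induction n with
  | zero =>
    refine ⟨1, one_pos, ?_⟩
    intro V _ hV E _ J X Y hJ _
    right
    have hJ' : J = ∅ := Finset.card_eq_zero.1 (Nat.le_zero.1 hJ)
    subst hJ'
    obtain ⟨v⟩ := hV
    exact ⟨fun _ => v, fun _ => v, fun _ => ∅, fun j hj => absurd hj (Finset.notMem_empty j),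
      fun i hi => absurd hi (Finset.notMem_empty i)⟩
  | succ n ih =>
    obtain ⟨κ, hκ, h⟩ := ih
    exact hS r n κ hκ h

end Pool.Agent.H49.GM
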